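import Pool.Agent.R246.SK.Defs

/-!
# SK-CF: Fourier coefficients as inner products
-/

open scoped ContDiff ComplexConjugate
open Filter MeasureTheory

namespace Pool.Agent.R886.SK

open Pool.Agent.R246.SK

theorem ee_add (n m : ℤ) (t : ℝ) : ee (n + m) t = ee n t * ee m t := by
  unfold ee
  rw [← Complex.exp_add]
  congr 1
  push_cast
  ring

theorem ee_zero (t : ℝ) : ee 0 t = 1 := by
  unfold ee
  simp

theorem ee_conj (n : ℤ) (t : ℝ) : conj (ee n t) = ee (-n) t := by
  unfold ee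
  rw [← Complex.exp_conj]
  congr 1
  simp

theorem ee_per (n : ℤ) (t : ℝ) : ee n (t + 2 * Real.pi) = ee n t := by
  unfold ee
  rw [Complex.exp_eq_exp_iff_exists_int]
  refine ⟨n, ?_⟩
  push_cast
  ring

theorem ee_contDiff (n : ℤ) : ContDiff ℝ ∞ (ee n) := by
  unfold ee
  exact (contDiff_const.mul Complex.ofRealCLM.contDiff).cexp

theorem ofReal_contDiff {a : ℝ → ℝ} (h : ContDiff ℝ ∞ a) : ContDiff ℝ ∞ (fun t => (a t : ℂ)) :=
  Complex.ofRealCLM.contDiff.comp h

theorem two_pi_mul (z : ℂ) :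
    ((2 * Real.pi : ℝ) : ℂ) * (((1 / (2 * Real.pi) : ℝ) : ℂ) * z) = z := by
  rw [← mul_assoc, ← Complex.ofReal_mul]
  have : 2 * Real.pi * (1 / (2 * Real.pi)) = 1 := by
    have := Real.pi_pos
    field_simp
  rw [this]
  simp

theorem s_cf : S_CF := by
  intro a ha
  obtain ⟨h1, h2, h3⟩ := ha
  have key : ∀ (f : ℝ → ℂ) (k : ℤ), ip a f (fun t => (a t : ℂ) * ee k t)
      = ((2 * Real.pi : ℝ) : ℂ) * fc f k := by
    intro f k
    unfold fc ip
    rw [two_pi_mul]
    apply intervalIntegral.integral_congr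
    intro t _
    have hat : (a t : ℂ) ≠ 0 := by exact_mod_cast (h3 t).ne'
    change f t * conj ((a t : ℂ) * ee k t) / (a t : ℂ) = f t * ee (-k) t
    rw [map_mul, Complex.conj_ofReal, ee_conj]
    field_simp
  refine ⟨?_, key, ?_⟩
  · intro k
    refine ⟨(ofReal_contDiff h1).mul (ee_contDiff k), ?_⟩
    intro t
    change (a (t + 2 * Real.pi) : ℂ) * ee k (t + 2 * Real.pi) = (a t : ℂ) * ee k t
    rw [h2, ee_per]
  · intro k m
    rw [key]
    congr 1
    unfold ac fc
    congr 1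
    apply intervalIntegral.integral_congr
    intro t _
    change (a t : ℂ) * ee m t * ee (-k) t = (a t : ℂ) * ee (-(k - m)) t
    rw [mul_assoc, ← ee_add]
    congr 2
    ring

end Pool.Agent.R886.SK
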