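import Pool.Agent.R246.SK.Defs

/-!
# SK-EIG: matrix elements between eigenfunctions
-/

open scoped ContDiff ComplexConjugate
open Filter MeasureTheory

namespace Pool.Agent.R886.SK

open Pool.Agent.R246.SK

theorem SP.cont {f : ℝ → ℂ} (h : SP f) : Continuous f := h.1.continuous

theorem SP.diff {f : ℝ → ℂ} (h : SP f) : Differentiable ℝ f :=
  h.1.differentiable (by simp)

theorem SP.contDeriv {f : ℝ → ℂ} (h : SP f) : Continuous (deriv f) :=
  h.1.continuous_deriv (by exact_mod_cast le_top)

/-- integration by parts for periodic functions -/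
theorem by_parts {f g : ℝ → ℂ} (hf : SP f) (hg : SP g) :
    ∫ t in (0 : ℝ)..(2 * Real.pi), deriv f t * conj (g t)
      = - ∫ t in (0 : ℝ)..(2 * Real.pi), f t * conj (deriv g t) := by
  have h1 : ∀ x, HasDerivAt f (deriv f x) x := fun x => (SP.diff hf x).hasDerivAt
  have h2 : ∀ x, HasDerivAt (fun t => conj (g t)) (conj (deriv g x)) x := by
    intro x
    have := (SP.diff hg x).hasDerivAt
    exact Complex.conjCLE.toContinuousLinearMap.hasFDerivAt.comp_hasDerivAt x this
  have h3 := intervalIntegral.integral_mul_deriv_eq_deriv_mul (a := 0) (b := 2 * Real.pi)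
    (u := f) (v := fun t => conj (g t)) (u' := deriv f) (v' := fun t => conj (deriv g t))
    (fun x _ => h1 x) (fun x _ => h2 x)
    ((SP.contDeriv hf).intervalIntegrable _ _)
    ((Complex.continuous_conj.comp (SP.contDeriv hg)).intervalIntegrable _ _)
  have h4 : f (2 * Real.pi) = f 0 := by
    have := hf.2 0
    rwa [zero_add] at this
  have h5 : g (2 * Real.pi) = g 0 := by
    have := hg.2 0
    rwa [zero_add] at this
  rw [h4, h5, sub_self, zero_sub] at h3
  rw [h3, neg_neg]

theorem s_eig (hL : S_LAM) : S_EIG := by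
  intro a f g l m ha hf hg hl hm
  obtain ⟨ha1, ha2, ha3⟩ := ha
  obtain ⟨hLf, -, hsym⟩ := hL f hf
  obtain ⟨hLg, -, -⟩ := hL g hg
  have hne : ∀ t, (a t : ℂ) ≠ 0 := fun t => by exact_mod_cast (ha3 t).ne'
  have hac : Continuous (fun t => (a t : ℂ)) := Complex.continuous_ofReal.comp ha1.continuous
  -- first integral
  have e1 : ∫ t in (0 : ℝ)..(2 * Real.pi), (a t : ℂ) * (Lam f t * conj (Lam g t))
      = (l : ℂ) ^ 2 * ip a f g := by
    have s1 : ∫ t in (0 : ℝ)..(2 * Real.pi), (a t : ℂ) * (Lam f t * conj (Lam g t))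
        = (l : ℂ) * ∫ t in (0 : ℝ)..(2 * Real.pi), f t * conj (Lam g t) := by
      rw [← intervalIntegral.integral_const_mul]
      apply intervalIntegral.integral_congr
      intro t _
      change (a t : ℂ) * (Lam f t * conj (Lam g t)) = (l : ℂ) * (f t * conj (Lam g t))
      rw [← mul_assoc, hl t]
      ring
    have s2 : ∫ t in (0 : ℝ)..(2 * Real.pi), Lam f t * conj (g t) = (l : ℂ) * ip a f g := by
      unfold ip
      rw [← intervalIntegral.integral_const_mul]
      apply intervalIntegral.integral_congr
      intro t _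
      change Lam f t * conj (g t) = (l : ℂ) * (f t * conj (g t) / (a t : ℂ))
      have h1 := hl t
      have h2 := hne t
      have h3 : Lam f t = (l : ℂ) * f t / (a t : ℂ) := by
        rw [← h1]
        field_simp
      rw [h3]
      ring
    rw [s1, ← hsym g hg, s2]
    ring
  have cg : ∀ t, (a t : ℂ) * conj (deriv g t) = - (Complex.I * (m : ℂ)) * conj (g t) := by
    intro t
    have h1 := congrArg conj (hm t)
    rw [map_mul, Complex.conj_ofReal, map_mul, map_mul, Complex.conj_I, Complex.conj_ofReal] at h1
    rw [h1]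
    ring
  have e2 : ∫ t in (0 : ℝ)..(2 * Real.pi), (a t : ℂ) * (deriv f t * conj (deriv g t))
      = (m : ℂ) ^ 2 * ip a f g := by
    have s1 : ∫ t in (0 : ℝ)..(2 * Real.pi), (a t : ℂ) * (deriv f t * conj (deriv g t))
        = - (Complex.I * (m : ℂ)) * ∫ t in (0 : ℝ)..(2 * Real.pi), deriv f t * conj (g t) := by
      rw [← intervalIntegral.integral_const_mul]
      apply intervalIntegral.integral_congr
      intro t _
      change (a t : ℂ) * (deriv f t * conj (deriv g t))
        = - (Complex.I * (m : ℂ)) * (deriv f t * conj (g t))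
      calc (a t : ℂ) * (deriv f t * conj (deriv g t))
          = deriv f t * ((a t : ℂ) * conj (deriv g t)) := by ring
        _ = - (Complex.I * (m : ℂ)) * (deriv f t * conj (g t)) := by rw [cg t]; ring
    have s2 : ∫ t in (0 : ℝ)..(2 * Real.pi), f t * conj (deriv g t)
        = - (Complex.I * (m : ℂ)) * ip a f g := by
      unfold ip
      rw [← intervalIntegral.integral_const_mul]
      apply intervalIntegral.integral_congr
      intro t _
      change f t * conj (deriv g t) = - (Complex.I * (m : ℂ)) * (f t * conj (g t) / (a t : ℂ))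
      have h2 := hne t
      have h3 : conj (deriv g t) = - (Complex.I * (m : ℂ)) * conj (g t) / (a t : ℂ) := by
        rw [← cg t]
        field_simp
      rw [h3]
      ring
    rw [s1, by_parts hf hg, s2]
    have : (Complex.I : ℂ) ^ 2 = -1 := Complex.I_sq
    linear_combination (-(m : ℂ) ^ 2 * ip a f g) * this
  have e3 : TT a f g = (∫ t in (0 : ℝ)..(2 * Real.pi), (a t : ℂ) * (Lam f t * conj (Lam g t)))
      - ∫ t in (0 : ℝ)..(2 * Real.pi), (a t : ℂ) * (deriv f t * conj (deriv g t)) := by
    unfold TT
    rw [← intervalIntegral.integral_sub]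
    · apply intervalIntegral.integral_congr
      intro t _
      change (a t : ℂ) * (Lam f t * conj (Lam g t) - deriv f t * conj (deriv g t))
        = (a t : ℂ) * (Lam f t * conj (Lam g t)) - (a t : ℂ) * (deriv f t * conj (deriv g t))
      ring
    · exact (hac.mul ((SP.cont hLf).mul (Complex.continuous_conj.comp (SP.cont hLg)))).intervalIntegrable _ _
    · exact (hac.mul ((SP.contDeriv hf).mul
        (Complex.continuous_conj.comp (SP.contDeriv hg)))).intervalIntegrable _ _
  rw [e3, e1, e2]
  push_cast
  ring

end Pool.Agent.R886.SK
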